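import Pool.Agent.H83.TT.Tower
import Pool.Graph.R_pool_sql_team_seeded_620a6dc7.H948_Strat.Agf
import Pool.Graph.R_pool_sql_team_seeded_620a6dc7.H948_Strat.Balmer
import Pool.Graph.R_pool_sql_team_seeded_620a6dc7.H948_Strat.Core
import Pool.Graph.R_pool_sql_team_seeded_620a6dc7.H948_Strat.Fl
import Pool.Graph.R_pool_sql_team_seeded_620a6dc7.H948_Strat.Fl05
import Pool.Graph.R_pool_sql_team_seeded_620a6dc7.H948_Strat.Flz
import Pool.Graph.R_pool_sql_team_seeded_620a6dc7.H948_Strat.H
import Pool.Graph.R_pool_sql_team_seeded_620a6dc7.H948_Strat.Ho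
import Pool.Graph.R_pool_sql_team_seeded_620a6dc7.H948_Strat.HoTensor
import Pool.Graph.R_pool_sql_team_seeded_620a6dc7.H948_Strat.Idem
import Pool.Graph.R_pool_sql_team_seeded_620a6dc7.H948_Strat.IhomLoc
import Pool.Graph.R_pool_sql_team_seeded_620a6dc7.H948_Strat.Main
import Pool.Graph.R_pool_sql_team_seeded_620a6dc7.H948_Strat.Nil
import Pool.Graph.R_pool_sql_team_seeded_620a6dc7.H948_Strat.Prods
import Pool.Graph.R_pool_sql_team_seeded_620a6dc7.H948_Strat.Seq
import Pool.Graph.R_pool_sql_team_seeded_620a6dc7.H948_Strat.Small
import Pool.Graph.R_pool_sql_team_seeded_620a6dc7.H948_Strat.Tree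

/-!
# Stratification implies costratification

Let `C` be a rigidly-compactly generated tensor triangulated category with weakly noetherian
spectrum. If `C` is stratified, then `C` is costratified.

The definitions (`RigCptGen`, `IsLocIdeal`, `IsColocCoideal`, `Spc`, `IsThomason`,
`IsIdemTriangle`, `WeaklyNoetherian`, `gObj`, `Supp`, `Cosupp`, `Stratified`, `Costratified`) are in
`Pool.Graph.R_pool_sql_team_seeded_620a6dc7.H948_Strat.Defs`.
-/

set_option autoImplicit false
set_option linter.unusedSectionVars false

open CategoryTheory Limits MonoidalCategory Pretriangulated H948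

universe v u

namespace Pool.Agent.Results.MP_320227_al.StratifiedCostratified

variable {C : Type u} [Category.{v} C] [Preadditive C] [HasZeroObject C] [HasShift C ℤ]
  [∀ n : ℤ, (shiftFunctor C n).Additive] [Pretriangulated C] [IsTriangulated C]
  [MonoidalCategory C] [SymmetricCategory C] [MonoidalClosed C] [HasCoproducts.{v} C]
  [TensorExact C]

/-- The consequences of compact generation and rigidity. -/
lemma rpkg (h : RigCptGen C) : RPkg C := by
  have hcg : CptGen C := h.gen
  have hcop : S_coprodTri C := coprodTri
  have ho : HoAPI C := hoAPI C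
  have hb : S_bous C := bous hcop ho
  have hflz : S_flz C := flz
  refine { small := small hcg hb hflz, gen := ?_, all := all_of hb hcg,
           prods := prods hcg hcop ho hb, unit := h.unit, rigid := h.rigid }
  intro X hX
  obtain ⟨ι, G, hG, hgen⟩ := hcg
  exact hgen X fun i n f => hX _ f ((hG i).shift' n)

/-- A stratified rigidly-compactly generated tensor triangulated category with weakly noetherian
spectrum is costratified. -/
theorem result (C : Type u) [Category.{v} C] [Preadditive C] [HasZeroObject C] [HasShift C ℤ]
    [∀ n : ℤ, (shiftFunctor C n).Additive] [Pretriangulated C] [IsTriangulated C]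
    [MonoidalCategory C] [SymmetricCategory C] [MonoidalClosed C] [HasCoproducts.{v} C]
    [TensorExact C] (hC : RigCptGen C) (hW : WeaklyNoetherian C) (hS : Stratified C) :
    Costratified C := by
  have hR : RPkg C := rpkg hC
  have hct : S_cptTri C := cptTri
  have hcop : S_coprodTri C := coprodTri
  have ho : HoAPI C := hoAPI C
  have hb : S_bous C := bous hcop ho
  have hprods : HasProducts.{v} C := hR.prods
  have hz1 : S_z1 C := z1 hR.small
  have htree : S_tree C := tree ho hR.small hcop hz1
  have htower : S_tower C := tower hR hz1
  have hloc : S_local C := localAPI hR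
  have hflz : S_flz C := flz
  have hH : S_H C := propH hR hflz hloc hct
  have hseq : S_seq C := seq hR agf hH hloc
  have hhoT : S_hoTensor C := hoTensor
  have hfl : S_fl C := fl hR.all
  have hfl05 : S_fl05 C := fl05 hR hfl
  have hnil : S_nil C := nil hR ho hhoT hfl05 hloc
  have hcore : S_core C := core hR htree htower hseq hnil hloc
  have hfin : S_finLocEx C := finLocEx hR hb
  have hihom : S_ihomLoc C := ihomLoc hR
  have hI : S_cptIn C := cptIn_thick hR
  have hidem : S_idem C := idem hR hI
  have hprime : S_prime C := prime hR
  have hcover : S_cover C := cover hR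
  have hgorth : S_gorth C := gorth hR hct hidem hprime hcover
  exact main hcore hloc hidem hgorth hfin hihom hI hW hS

end Pool.Agent.Results.MP_320227_al.StratifiedCostratified
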